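import Pool.Agent.H28.MCB.Targets
import Pool.Agent.H59.MCL.GEN

/-!
Project MCB, row GEB: the theorem with the constants `θ` and `η` from the deterministic bound
-/

set_option autoImplicit false

open Finset Filter Topology

namespace Pool.Agent.H21.MCB

open Pool.Agent.H24.MR (lam)
open Pool.Agent.H24.T2 (Fr)
open Pool.Agent.H27.T2 (good Fr_val exists_modulus)
open Pool.Agent.H28.MCL Pool.Agent.H28.MCB
open Pool.Agent.H59.MCL (abs_gs abs_Fr ind_nonneg ind_of log_nonneg' exists_zeta mm_nonneg err_le)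

theorem Fam_mono {K K' N : ℕ} {I : Finset (ℕ × ℕ)} (h : Fam K N I) (hK : K' ≤ K) :
    Fam K' N I :=
  ⟨fun J hJ => ⟨(Nat.add_le_add_left hK _).trans (h.1 J hJ).1, (h.1 J hJ).2⟩, h.2⟩

theorem hI_zero {m : ℕ} (q n₀ : ℕ) (τ : Fin m → ℕ) (F : Fin m → ℕ → ℝ) (w : ℕ → ℝ)
    (I : Finset (ℕ × ℕ)) (T : ℕ) (h : ∀ t ∈ bx m T q τ, ∀ n, n ≡ n₀ [MOD q] →
      ∏ l, F l (n + t l) = 0) : lhI q n₀ τ F w I T = 0 ∧ rhI q n₀ τ F I T = 0 := by
  have hiv : ∀ N H : ℕ, ∀ n ∈ iv N H q n₀, n ≡ n₀ [MOD q] := by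
    intro N H n hn
    unfold iv at hn
    exact (Finset.mem_filter.1 hn).2
  constructor
  · unfold lhI
    refine Finset.sum_eq_zero fun J _ => ?_
    unfold lhs
    refine Finset.sum_eq_zero fun t ht => ?_
    rw [abs_eq_zero]
    refine Finset.sum_eq_zero fun n hn => ?_
    rw [h t ht n (hiv _ _ n hn), mul_zero]
  · unfold rhI
    refine Finset.sum_eq_zero fun J _ => ?_
    unfold rhs
    refine Finset.sum_eq_zero fun t ht => ?_
    refine Finset.sum_eq_zero fun n hn => ?_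
    rw [← Finset.abs_prod, h t ht n (hiv _ _ n hn), abs_zero]

open Classical in
/-- **Row GEB.** -/
theorem geb (_hb : T_BVB) (hd : T_DBL) (hpos : T_POS) (hl : T_LOB) (hn : T_ERN) (he : T_ERI)
    (hf : T_FNB) : T_GEB := by
  intro m D θ δ κ V η hm hD hθ hθ1 hδ hκ hκ1 hV hη hBB hDT r α ε q n₀ τ hα hε hodd hq ρ hρ
  by_cases hz : ∃ l, ∀ y, y ≡ n₀ + τ l [MOD q] → Fr (α l) (ε l) y = 0
  · obtain ⟨l, hl0⟩ := hz
    refine ⟨1, fun x y hx hxy => ?_⟩
    rw [one_mul] at hxy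
    have hprod : ∀ T : ℕ, ∀ t ∈ bx m T q τ, ∀ n, n ≡ n₀ [MOD q] →
        ∏ l, Fr (α l) (ε l) (n + t l) = 0 := by
      intro T t ht n hn'
      apply Finset.prod_eq_zero (Finset.mem_univ l)
      apply hl0
      unfold bx at ht
      rw [Finset.mem_filter] at ht
      exact hn'.add (ht.2 l)
    have hempty : ∀ N : ℕ, ¬ ∃ (T : ℕ) (w : ℕ → ℝ) (I : Finset (ℕ × ℕ)), 1 ≤ T ∧ T ≤ N ∧
          (∀ n, |w n| ≤ 1) ∧ Fam 1 N I ∧ θ * N ≤ len I ∧
          η * rhI q n₀ τ (fun l => Fr (α l) (ε l)) I T <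
            lhI q n₀ τ (fun l => Fr (α l) (ε l)) w I T := by
      rintro N ⟨T, w, I, _, _, _, _, _, hlt⟩
      obtain ⟨e1, e2⟩ := hI_zero q n₀ τ (fun l => Fr (α l) (ε l)) w I T (hprod T)
      rw [e1, e2, mul_zero] at hlt
      exact lt_irrefl _ hlt
    rw [Finset.filter_false_of_mem (fun N _ => hempty N), Finset.sum_empty]
    exact mul_nonneg hρ.le (log_nonneg' hx hxy)
  · push Not at hz
    have hPl : ∀ l, ∃ c : ℝ, 0 < c ∧ ∀ w W : ℕ, 0 < W → q ∣ W →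
        (∀ p : ℕ, p.Prime → p ≤ w → p ^ 2 ∣ W) →
        c * W ≤ ((good (α l) q (n₀ + τ l) w W).card : ℝ) := fun l =>
      hpos (r l) (α l) (ε l) q (n₀ + τ l) (hα l) (hε l) (hodd l) hq (hz l)
    choose cl hcl0 hcl using hPl
    obtain ⟨l₀, -, hl₀⟩ := Finset.exists_min_image (Finset.univ : Finset (Fin m)) cl
      ⟨⟨0, hm⟩, Finset.mem_univ _⟩
    obtain ⟨c, hc⟩ : ∃ c, c = cl l₀ := ⟨_, rfl⟩
    have hc0 : 0 < c := hc ▸ hcl0 l₀
    have hcle : ∀ l, c ≤ cl l := fun l => hc ▸ hl₀ l (Finset.mem_univ l)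
    obtain ⟨ζ, hζ, hζV⟩ := exists_zeta V η hV hη
    have hη0 : 0 ≤ η := (Real.sqrt_nonneg V).trans hη.le
    have hm' : (1 : ℝ) ≤ m := by exact_mod_cast hm
    have hq' : (0 : ℝ) < q := by exact_mod_cast hq
    obtain ⟨θ₂, hθ₂⟩ : ∃ θ₂ : ℝ, θ₂ = ζ * c ^ m / (8 * m * q) := ⟨_, rfl⟩
    have hθ₂0 : 0 < θ₂ := by
      rw [hθ₂]
      positivity
    obtain ⟨R, hR⟩ : ∃ R : ℕ, R = ∑ l, r l := ⟨_, rfl⟩
    obtain ⟨w₀, hw₀⟩ := exists_nat_ge ((4 * (R : ℝ) + 1) / (θ₂ * θ))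
    obtain ⟨w, hw⟩ : ∃ w : ℕ, w = max (max q 2) w₀ := ⟨_, rfl⟩
    have hwq : q ≤ w := hw ▸ (le_max_left q 2).trans (le_max_left _ _)
    have hw2 : 2 ≤ w := hw ▸ (le_max_right q 2).trans (le_max_left _ _)
    have hww : (w₀ : ℝ) ≤ w := by
      have : w₀ ≤ w := hw ▸ le_max_right _ _
      exact_mod_cast this
    have hw0 : (0 : ℝ) < w := by
      have : 0 < w := by omega
      exact_mod_cast this
    have hεθ : (4 * (R : ℝ) + 1) / w ≤ θ₂ * θ := by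
      rw [div_le_iff₀ hw0]
      have h1 := hw₀.trans hww
      rw [div_le_iff₀ (by positivity)] at h1
      linarith
    obtain ⟨W, hW, hWe, hqW, -, hsq⟩ := exists_modulus q w hq hwq hw2
    have hW' : (0 : ℝ) < W := by exact_mod_cast hW
    obtain ⟨A, hA⟩ : ∃ A : Fin m → Finset ℕ, A = fun l => good (α l) q (n₀ + τ l) w W := ⟨_, rfl⟩
    obtain ⟨g, hg⟩ : ∃ g : Fin m → ℕ → ℝ, g = fun l => gs (od (α l) (ε l)) := ⟨_, rfl⟩
    obtain ⟨F, hFd⟩ : ∃ F : Fin m → ℕ → ℝ, F = fun l => Fr (α l) (ε l) := ⟨_, rfl⟩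
    obtain ⟨G, hG⟩ : ∃ G : Fin m → ℕ → ℝ, G = gc W A g := ⟨_, rfl⟩
    rw [← hFd]
    have hAr : ∀ l, A l ⊆ Finset.range W := by
      intro l
      rw [hA]
      exact Finset.filter_subset _ _
    have hAc : ∀ l, ∀ a ∈ A l, a ≡ n₀ + τ l [MOD q] := by
      intro l a ha
      rw [hA] at ha
      have ha' : a ∈ good (α l) q (n₀ + τ l) w W := ha
      unfold good at ha'
      exact (Finset.mem_filter.1 ha').2.1
    have hAcard : ∀ l, c * W ≤ ((A l).card : ℝ) := by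
      intro l
      rw [hA]
      exact (mul_le_mul_of_nonneg_right (hcle l) hW'.le).trans (hcl l w W hW hqW hsq)
    have hg1 : ∀ l y, |g l y| = 1 := by
      intro l y
      rw [hg]
      exact abs_gs _ _
    have hF1 : ∀ l y, |F l y| ≤ 1 := by
      intro l y
      rw [hFd]
      exact abs_Fr _ _ _
    have hG1 : ∀ l y, |G l y| ≤ 1 := by
      intro l y
      rw [hG]
      unfold gc
      split_ifs
      · exact (hg1 l y).le
      · norm_num
    -- the bad windows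
    obtain ⟨h₀, hh₀⟩ := hBB (fun l => od (α l) (ε l)) W A (fun l => by
      obtain ⟨i, hi⟩ := hodd l
      exact ⟨α l i, Finset.mem_image_of_mem _ (Finset.mem_filter.2 ⟨Finset.mem_univ i, hi⟩)⟩)
      hW hWe hAr (ρ / 4) (by positivity)
    obtain ⟨h₁, hh₁⟩ := hDT q W hq hqW hW ζ hζ
    obtain ⟨h, hh⟩ : ∃ h : ℕ, h = max h₀ h₁ := ⟨_, rfl⟩
    have hbd1 := hh₀ h (hh ▸ le_max_left _ _)
    rw [← hg] at hbd1
    obtain ⟨K₁, hK₁⟩ := hd _ _ _ hbd1
    -- the errors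
    have hErr : ∃ K₂ : ℕ, ∀ N, K₂ ≤ N →
        ∑ n ∈ Finset.Icc 1 (2 * N), ee q n₀ τ F G n ≤ 2 * ((4 * R + 1) / w) * N := by
      have h1 : ∀ l, ∃ K : ℕ, ∀ N, K ≤ N → ∑ n ∈ Finset.Icc 1 N,
          ind (fun y => y ≡ n₀ + τ l [MOD q] ∧ F l y ≠ G l y) n ≤ (4 * r l + 1) / w * N := by
        intro l
        have h2 := hn (r l) (α l) (ε l) q (n₀ + τ l) w W (hα l) (hε l) hq (by omega) hW hqW hsq
        rw [hFd, hG, hA, hg]
        exact h2
      choose Kl hKl using h1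
      obtain ⟨K₂, hK₂⟩ : ∃ K₂ : ℕ, K₂ = ∑ l, Kl l := ⟨_, rfl⟩
      refine ⟨K₂, fun N hN => ?_⟩
      have h3 : ∀ l, ∑ n ∈ Finset.Icc 1 (2 * N),
          ind (fun y => y ≡ n₀ + τ l [MOD q] ∧ F l y ≠ G l y) n ≤
          (4 * R + 1) / w * (2 * N) := by
        intro l
        have h4 : Kl l ≤ K₂ := by
          rw [hK₂]
          exact Finset.single_le_sum (f := Kl) (fun _ _ => Nat.zero_le _) (Finset.mem_univ l)
        have h5 := hKl l (2 * N) (by omega)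
        push_cast at h5
        refine h5.trans ?_
        have h6 : r l ≤ R := by
          rw [hR]
          exact Finset.single_le_sum (f := r) (fun _ _ => Nat.zero_le _) (Finset.mem_univ l)
        have h7 : (r l : ℝ) ≤ R := by exact_mod_cast h6
        have hN0 : (0 : ℝ) ≤ N := Nat.cast_nonneg N
        apply mul_le_mul_of_nonneg_right _ (by linarith)
        apply div_le_div_of_nonneg_right _ hw0.le
        linarith
      unfold ee
      rw [← Finset.mul_sum, Finset.sum_comm]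
      have h8 := Finset.sum_le_sum fun (l : Fin m) (_ : l ∈ Finset.univ) => h3 l
      rw [Finset.sum_const, Finset.card_univ, Fintype.card_fin, nsmul_eq_mul] at h8
      rw [one_div, inv_mul_le_iff₀ (by linarith)]
      refine h8.trans (le_of_eq ?_)
      ring
    obtain ⟨K₂, hK₂⟩ := hErr
    obtain ⟨K₃, hK₃⟩ := hh₁ h (hh ▸ le_max_right _ _)
    obtain ⟨K₄, hK₄⟩ := hl m q W ζ hq hW hqW hζ
    obtain ⟨K, hK⟩ : ∃ K : ℕ, K = max (max (max K₁ K₂) (max K₃ K₄)) 1 := ⟨_, rfl⟩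
    have hKK₁ : K₁ ≤ K := by rw [hK]; simp
    have hKK₂ : K₂ ≤ K := by rw [hK]; simp
    have hKK₃ : K₃ ≤ K := by rw [hK]; simp
    have hKK₄ : K₄ ≤ K := by rw [hK]; simp
    have hKK₅ : 1 ≤ K := by rw [hK]; simp
    refine ⟨K, fun x y hx hxy => ?_⟩
    have hx1 : x ≤ y := by
      have := (Nat.mul_le_mul_right x hKK₅).trans hxy
      rwa [one_mul] at this
    have hlog := log_nonneg' hx hx1
    -- the deterministic bound
    have key : ∀ N : ℕ, ∑ n ∈ Finset.Icc 1 (2 * N), bb D W κ h A g n ≤ 2 * δ * N →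
        ∀ (T : ℕ) (v : ℕ → ℝ) (I : Finset (ℕ × ℕ)), K ≤ T → T ≤ N → (∀ n, |v n| ≤ 1) →
        Fam K N I → θ * N ≤ len I →
        lhI q n₀ τ F v I T ≤ η * rhI q n₀ τ F I T := by
      intro N hgd T v I hKT hTN hv hI hlen
      have e1 := hK₃ n₀ τ A g hAr hAc (fun l y => (hg1 l y).le) N T I (hKK₃.trans hKT) hTN
        (Fam_mono hI hKK₃) hlen hgd v hv
      have e2 := hK₄ n₀ τ A g hAr hAc hg1 N T I (Fam_mono hI hKK₄) (hKK₄.trans hKT)
      have e3 := he m q n₀ τ F G ((4 * R + 1) / w) N T I hm hq hF1 hG1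
        (hKK₅.trans hKT) hTN (Fam_mono hI hKK₅) (hK₂ N (hKK₂.trans (hKT.trans hTN)))
      have hmm0 : 0 ≤ mm q W A (len I) T := mm_nonneg q W (len I) T A
      have e4 : 8 * m * θ₂ * (T : ℝ) ^ m * (len I : ℕ) ≤ ζ * mm q W A (len I) T :=
        err_le m q W (len I) T A c ζ θ₂ hm hq hW hc0 hζ hθ₂ hAcard
      have e5 : 4 * m * ((4 * (R : ℝ) + 1) / w) * (T : ℝ) ^ m * N ≤
          8 * m * θ₂ * (T : ℝ) ^ m * (len I : ℕ) := by
        have hN0 : (0 : ℝ) ≤ N := Nat.cast_nonneg N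
        have f1 : (4 * (R : ℝ) + 1) / w * N ≤ θ₂ * (len I : ℕ) := by
          calc (4 * (R : ℝ) + 1) / w * N ≤ θ₂ * θ * N := mul_le_mul_of_nonneg_right hεθ hN0
            _ = θ₂ * (θ * N) := by ring
            _ ≤ θ₂ * (len I : ℕ) := mul_le_mul_of_nonneg_left hlen hθ₂0.le
        have f2 : (0 : ℝ) ≤ 4 * m * (T : ℝ) ^ m := by positivity
        have f3 : 0 ≤ 4 * m * (T : ℝ) ^ m * (θ₂ * (len I : ℕ)) := by positivity
        calc 4 * m * ((4 * (R : ℝ) + 1) / w) * (T : ℝ) ^ m * N =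
            4 * m * (T : ℝ) ^ m * ((4 * (R : ℝ) + 1) / w * N) := by ring
          _ ≤ 4 * m * (T : ℝ) ^ m * (θ₂ * (len I : ℕ)) := mul_le_mul_of_nonneg_left f1 f2
          _ ≤ 4 * m * (T : ℝ) ^ m * (θ₂ * (len I : ℕ)) +
              4 * m * (T : ℝ) ^ m * (θ₂ * (len I : ℕ)) := by linarith
          _ = 8 * m * θ₂ * (T : ℝ) ^ m * (len I : ℕ) := by ring
      rw [← hG] at e1 e2
      exact hf m q n₀ τ F G v I T (mm q W A (len I) T) (V + ζ) ζ η hmm0 (by linarith) hη0 hv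
        (e3.trans (e5.trans e4)) e1 e2 hζV
    have s1 := hK₁ x y hx ((Nat.mul_le_mul_right x hKK₁).trans hxy)
    have s4 : ∑ N ∈ (Finset.Icc x y).filter (fun N => ∃ (T : ℕ) (w : ℕ → ℝ)
          (I : Finset (ℕ × ℕ)), K ≤ T ∧ T ≤ N ∧ (∀ n, |w n| ≤ 1) ∧ Fam K N I ∧
          θ * N ≤ len I ∧ η * rhI q n₀ τ F I T < lhI q n₀ τ F w I T), (1 : ℝ) / N ≤
        ∑ N ∈ Finset.Icc x y, ind (fun N => 2 * δ * N <
          ∑ n ∈ Finset.Icc 1 (2 * N), bb D W κ h A g n) N / N := by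
      rw [Finset.sum_filter]
      apply Finset.sum_le_sum
      intro N _
      have hN0 : (0 : ℝ) ≤ N := Nat.cast_nonneg N
      have p1 : 0 ≤ ind (fun N => 2 * δ * N <
          ∑ n ∈ Finset.Icc 1 (2 * N), bb D W κ h A g n) N / N :=
        div_nonneg (ind_nonneg _ _) hN0
      split_ifs with hN
      · obtain ⟨T, v, I, hKT, hTN, hv, hI, hlen, hlt⟩ := hN
        rw [ind_of]
        by_contra hcon
        exact absurd (key N (not_lt.1 hcon) T v I hKT hTN hv hI hlen) (not_le.2 hlt)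
      · exact p1
    have s5 : 2 * (ρ / 4) * Real.log ((y : ℝ) / x) ≤ ρ * Real.log ((y : ℝ) / x) :=
      mul_le_mul_of_nonneg_right (by linarith) hlog
    exact s4.trans (s1.trans s5)

end Pool.Agent.H21.MCB
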